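import Mathlib
import Pool.Agent.HDA.Main

/-!
# Homogeneous hereditarily decomposable continua containing an arc are circles

Let `X` be a nondegenerate homogeneous hereditarily decomposable continuum in which two distinct
points are joined by a path. Then `X` is a circle.

Sketch of the proof. `X` contains an arc and no nondegenerate indecomposable continuum. A doubling
construction produces at every point small arcs that meet all their images under small
homeomorphisms moving their end point only within its path component, and shows that small arcs
locally cut the path components. Either all such arcs at a point leave in one direction, and then
the path components are locally trees with a preferred direction, in which every point has unique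
small arcs upwards, or the path components are locally arcs. In both cases moving along the arcs
gives a flow on a compact space of states, which covers `X` at most twice. The flow has small local
cross sections that are totally disconnected (otherwise a square with opposite sides in disjoint
sets yields an indecomposable continuum by an infinite zigzag construction), so it is minimal and
the first hitting time of a cross section is continuous on a proper subcontinuum with interior;
therefore this subcontinuum lies in one path component, which is not meagre. A homogeneous
hereditarily decomposable continuum with a path component that is not meagre is a circle (project
HDC).
-/

set_option linter.dupNamespace false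

namespace Pool.Agent.Results.MP_45a7b9_gt.ContainsArc

theorem result (X : Type) [MetricSpace X] [CompactSpace X] [ConnectedSpace X] [Nontrivial X]
    (hom : ∀ x y : X, ∃ h : X ≃ₜ X, h x = y)
    (hd : ∀ K : Set X, IsClosed K → IsConnected K → K.Nontrivial →
      ∃ A B : Set X, IsClosed A ∧ IsConnected A ∧ IsClosed B ∧ IsConnected B ∧
        A ⊂ K ∧ B ⊂ K ∧ A ∪ B = K)
    (harc : ∃ x y : X, x ≠ y ∧ Joined x y) : Nonempty (X ≃ₜ Circle) := by
  obtain ⟨x, y, hne, hj⟩ := harc
  exact Pool.Agent.HDA.main hom hd hne hj

end Pool.Agent.Results.MP_45a7b9_gt.ContainsArc
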