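import Mathlib
import Pool.Agent.HDC.Main

/-!
# Homogeneous hereditarily decomposable continua have meagre chain classes or are circles

Let `X` be a nondegenerate homogeneous hereditarily decomposable continuum. Then `X` is a circle, or
there is `r > 0` such that for every point `x` the set of all points that can be joined to `x` by a
connected finite union of subcontinua of diameter at most `r` is meagre.

The proof constructs a nondegenerate indecomposable subcontinuum in all other cases: a sequence of
doubling steps, each of which replaces a continuum irreducible between two closed sets by a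
continuum passing twice along it, converges to an indecomposable continuum. If `X` is not locally
connected the two parallel copies come from small homeomorphisms (Effros) that move finite unions
of small continua off themselves, and they are joined near a hub continuum that exists by Baire
category. If `X` is locally connected and has no local cut points, the two copies of an arc are
built from ears; if it has local cut points, it is a circle.
-/

set_option linter.dupNamespace false

namespace Pool.Agent.Results.MP_45a7b9_gt.MeagreClasses

theorem result (X : Type) [MetricSpace X] [CompactSpace X] [ConnectedSpace X] [Nontrivial X]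
    (hom : ∀ x y : X, ∃ h : X ≃ₜ X, h x = y)
    (hd : ∀ K : Set X, IsClosed K → IsConnected K → K.Nontrivial →
      ∃ A B : Set X, IsClosed A ∧ IsConnected A ∧ IsClosed B ∧ IsConnected B ∧
        A ⊂ K ∧ B ⊂ K ∧ A ∪ B = K) :
    Nonempty (X ≃ₜ Circle) ∨
      ∃ r > 0, ∀ x : X, IsMeagre {y : X | ∃ (n : ℕ) (K : Fin n → Set X),
        (∀ i, IsClosed (K i) ∧ IsConnected (K i) ∧ Metric.diam (K i) ≤ r) ∧
          IsConnected (⋃ i, K i) ∧ x ∈ ⋃ i, K i ∧ y ∈ ⋃ i, K i} := by
  rcases Pool.Agent.HDC.main hom hd with h | ⟨-, -, r, hr, h3⟩
  · exact Or.inl h
  · refine Or.inr ⟨r, hr, fun x => (h3 x).mono ?_⟩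
    rintro y ⟨n, K, hK, hc, hx, hy⟩
    exact ⟨_, ⟨n, K, fun i => ⟨⟨(hK i).1, (hK i).2.1⟩, (hK i).2.2⟩, rfl⟩, hc, hx, hy⟩

end Pool.Agent.Results.MP_45a7b9_gt.MeagreClasses
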